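import Pool.Agent.Run7.h859.Local

/-!
Local optimality of the canonical 2-basis. A vector of length `2 * n` is identified with its
support, a `Finset (Fin (2 * n))`, so that the Boolean sum of two vectors is the union of their
supports. For a set `X` of `n` coordinates, the canonical 2-basis belonging to `X` consists of all
vectors supported on `X` and all vectors supported on the complement of `X`.
-/

namespace Pool.Agent.Results.MP_2b8540_co.LocalOptimality

open Finset

/-- `A` is a 2-basis: every vector is the Boolean sum of two members of `A`, not necessarily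
distinct. -/
def TwoBasis {N : ℕ} (A : Finset (Finset (Fin N))) : Prop :=
  ∀ x : Finset (Fin N), ∃ a ∈ A, ∃ b ∈ A, x = a ∪ b

/-- The number of vectors supported on `X` which are missing from `A`. -/
def missing {N : ℕ} (A : Finset (Finset (Fin N))) (X : Finset (Fin N)) : ℕ :=
  (X.powerset \ A).card

theorem result (n : ℕ) (A : Finset (Finset (Fin (2 * n)))) (hA : TwoBasis A)
    (X : Finset (Fin (2 * n))) (hX : X.card = n)
    (h1 : 5 * missing A X + 2 ≤ 2 ^ n) (h2 : 5 * missing A Xᶜ + 2 ≤ 2 ^ n) :
    2 ^ (n + 1) - 1 ≤ A.card := by
  have hXc : Xᶜ.card = n := by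
    rw [Finset.card_compl, Fintype.card_fin, hX]
    omega
  have := Run7.h859.local_opt n A hA X hX hXc h1 h2
  omega

end Pool.Agent.Results.MP_2b8540_co.LocalOptimality
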