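import Pool.Agent.Run7.h859.Sums

/-!
A structure theorem for the Boolean sumset `A + A` of a set `A` of Boolean vectors of length
`2 * n`. A vector is identified with its support, a `Finset (Fin (2 * n))`, so that the Boolean
sum of two vectors is the union of their supports.
-/

namespace Pool.Agent.Results.MP_2b8540_co.StructureOfSmallBases

open Finset

/-- The set of all Boolean sums `a + b` with `a ∈ A` and `b ∈ B`; vectors are given by their
supports, so that `a + b` is `a ∪ b`. -/
def sums {N : ℕ} (A B : Finset (Finset (Fin N))) : Finset (Finset (Fin N)) :=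
  Finset.image₂ (fun a b => a ∪ b) A B

/-- A list `U i` of test families is admissible if each `U i` is a family of pairwise disjoint
nonempty sets of at most `d` coordinates. -/
def Admissible {N : ℕ} {I : Type} (U : I → Finset (Finset (Fin N))) (d : ℕ) : Prop :=
  ∀ i, (∀ Z ∈ U i, Z.Nonempty ∧ Z.card ≤ d) ∧ ∀ Z ∈ U i, ∀ Z' ∈ U i, Z ≠ Z' → Disjoint Z Z'

/-- `a` is an exceptional member of `A`, with respect to a finite list of test families `U i`, a
tolerance `ε` and a radius `d`: (1) the size of `a` is within `ε N` of `(1 - 1/√2) N`;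
(2) for all but at most a proportion `ε` of the test families, the number of the members of `U i`
missed by `a` is within `ε N` of `∑ Z ∈ U i, (1/√2)^|Z|`, its mean for a random set `a` which
contains every coordinate with probability `1 - 1/√2`; (3) there are at most `ε N` pairwise
disjoint nonempty sets `Z` of at most `d` coordinates such that changing `a` exactly on `Z` gives
a member of `A`. -/
def Exceptional {N : ℕ} (A : Finset (Finset (Fin N))) {I : Type} [Fintype I]
    (U : I → Finset (Finset (Fin N))) (ε : ℝ) (d : ℕ) (a : Finset (Fin N)) : Prop :=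
  |(a.card : ℝ) - (1 - 1 / √2) * N| ≤ ε * N ∧
  ((Finset.univ.filter fun i => ε * N <
      |(((U i).filter fun Z => Disjoint a Z).card : ℝ) - ∑ Z ∈ U i, (1 / √2) ^ Z.card|).card : ℝ)
    ≤ ε * Fintype.card I ∧
  ∀ F : Finset (Finset (Fin N)),
    (∀ Z ∈ F, Z.Nonempty ∧ Z.card ≤ d ∧ symmDiff a Z ∈ A) →
    (∀ Z ∈ F, ∀ Z' ∈ F, Z ≠ Z' → Disjoint Z Z') → (F.card : ℝ) ≤ ε * N

theorem result (ε : ℝ) (hε : 0 < ε) (d : ℕ) (hd : 0 < d) :
    ∃ n₀ : ℕ, ∀ n : ℕ, n₀ ≤ n →
      ∀ (A : Finset (Finset (Fin (2 * n)))) (I : Type) [Fintype I]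
        (U : I → Finset (Finset (Fin (2 * n)))), Admissible U d →
        ∀ B : Finset (Finset (Fin (2 * n))), B ⊆ A → (∀ a ∈ B, ¬ Exceptional A U ε d a) →
          ((sums A A).card : ℝ) ≤
            max ((A.card : ℝ) ^ 2 / 4)
              (((A.card : ℝ) - B.card) ^ 2 / 2 +
                min ((sums B B).card : ℝ) ((B.card : ℝ) ^ 2 / 4)) + ε * 4 ^ n := by
  classical
  obtain ⟨N₀, h⟩ := Run7.h859.master ε hε d hd
  refine ⟨N₀, fun n hn A I _ U hU B hBA hB => ?_⟩
  have hcard : Fintype.card (Fin (2 * n)) = 2 * n := Fintype.card_fin _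
  have hsqrt : √(1 / 2 : ℝ) = 1 / √2 := by
    rw [Real.sqrt_div' _ (by norm_num), Real.sqrt_one]
  have hgen : ∀ a, ¬ Exceptional A U ε d a → Run7.h859.Gen A U ε d a := by
    intro a
    unfold Run7.h859.Gen Exceptional
    rw [hsqrt, hcard]
    intro hne
    by_contra hcon
    push Not at hcon
    exact hne ⟨hcon.1, hcon.2.1, fun F h1 h2 => hcon.2.2 F h1 h2⟩
  have hb := h (Fin (2 * n)) (by rw [hcard]; omega) A I U hU B hBA fun a ha => hgen a (hB a ha)
  rw [hcard] at hb
  have h4 : (2 : ℝ) ^ (2 * n) = 4 ^ n := by rw [pow_mul]; norm_num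
  rw [h4] at hb
  exact hb

end Pool.Agent.Results.MP_2b8540_co.StructureOfSmallBases
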